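import Pool.Agent.Lib.MP_dcb6ed_co_CD.Hit

set_option autoImplicit false

namespace Pool.Agent.Results.MP_6d56f7_co.ColouringOutsideSmallSets

open Pool.Agent.Lib.CD

/-- Let `A n` be prescribed sets of vertices and `C n` prescribed sets of colours of `K_{2n}`, of
size at least `2 n / (log n)^(1/200)` for all large `n`.  For a uniformly random ordering of the
(colour, edge) pairs, with probability tending to one, every time `t` at which all lists are
nonempty and every vertex sees every colour admits a partial proper edge-colouring from the lists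
in which every edge that is not inside `A n` is coloured, and every vertex `v` sees every colour `c`
for which `v ∉ A n` or `c ∉ C n`. -/
theorem result (A : ∀ n : ℕ, Finset (Fin (2*n))) (C : ∀ n : ℕ, Finset (Fin (2*n-1)))
    (hA : ∀ᶠ n : ℕ in Filter.atTop, 2 * n / Real.log n ^ (1/200 : ℝ) ≤ ((A n).card : ℝ))
    (hC : ∀ᶠ n : ℕ in Filter.atTop, 2 * n / Real.log n ^ (1/200 : ℝ) ≤ ((C n).card : ℝ)) :
    Filter.Tendsto
      (fun n : ℕ =>
        ((Set.ncard {σ : (Fin (2*n-1) × {e : Sym2 (Fin (2*n)) // ¬ e.IsDiag}) ≃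
              Fin (Nat.card (Fin (2*n-1) × {e : Sym2 (Fin (2*n)) // ¬ e.IsDiag})) |
            ∀ t : ℕ,
              (∀ e : {e : Sym2 (Fin (2*n)) // ¬ e.IsDiag}, ∃ c : Fin (2*n-1),
                (σ (c, e) : ℕ) < t) →
              (∀ v : Fin (2*n), ∀ c : Fin (2*n-1),
                ∃ e : {e : Sym2 (Fin (2*n)) // ¬ e.IsDiag}, v ∈ e.1 ∧ (σ (c, e) : ℕ) < t) →
              ∃ φ : {e : Sym2 (Fin (2*n)) // ¬ e.IsDiag} → Option (Fin (2*n-1)),
                (∀ e c, φ e = some c → (σ (c, e) : ℕ) < t) ∧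
                (∀ e e' c v, φ e = some c → φ e' = some c → v ∈ e.1 → v ∈ e'.1 → e = e') ∧
                (∀ e v, v ∈ e.1 → v ∉ A n → ∃ c, φ e = some c) ∧
                (∀ v c, (v ∉ A n ∨ c ∉ C n) → ∃ e, v ∈ e.1 ∧ φ e = some c)} : ℝ) /
          (Nat.card ((Fin (2*n-1) × {e : Sym2 (Fin (2*n)) // ¬ e.IsDiag}) ≃
              Fin (Nat.card (Fin (2*n-1) × {e : Sym2 (Fin (2*n)) // ¬ e.IsDiag}))) : ℝ)))
      Filter.atTop (nhds 1) := by
  refine (hit A C hA hC).congr fun n => ?_
  congr 3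
  ext σ
  refine forall_congr' fun t => forall_congr' fun h1 => forall_congr' fun h2 => ?_
  constructor
  · rintro ⟨φ, hφ⟩
    refine ⟨φ, fun e c h => ?_, hφ.prop, hφ.edge, hφ.pres⟩
    have := hφ.list e c h
    rw [Finset.mem_filter] at this
    exact this.2
  · rintro ⟨φ, h3, h4, h5, h6⟩
    refine ⟨φ, fun e c h => ?_, h4, h5, h6⟩
    rw [Finset.mem_filter]
    exact ⟨Finset.mem_univ _, h3 e c h⟩

end Pool.Agent.Results.MP_6d56f7_co.ColouringOutsideSmallSets
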