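import Pool.Agent.Lib.MP_6d56f7_co_FA.Main

set_option autoImplicit false

namespace Pool.Agent.Results.MP_6d56f7_co.FarApart

open Finset Filter Topology Pool.Agent.Lib.FR Pool.Agent.Lib.FA

variable {n : ℕ}

/-- the pairs of a partial colouring -/
private noncomputable def gr (φ : Edge (Fin (2 * n)) → Option (Fin (2 * n - 1))) :
    Finset (J n) := by
  classical exact univ.filter (fun T => φ T.2 = some T.1)

private theorem mem_gr {φ : Edge (Fin (2 * n)) → Option (Fin (2 * n - 1))} {T : J n} :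
    T ∈ gr φ ↔ φ T.2 = some T.1 := by
  classical
  simp [gr]

private theorem pc_gr {φ : Edge (Fin (2 * n)) → Option (Fin (2 * n - 1))}
    (hφ : ∀ e e' c v, φ e = some c → φ e' = some c → v ∈ e.1 → v ∈ e'.1 → e = e') :
    PC (gr φ) := by
  rintro (e | ⟨v, c⟩) T hT T' hT' h1 h2
  · rw [mem_gr] at hT hT'
    rw [mem_st_inl] at h1 h2
    rw [h1] at hT
    rw [h2, hT] at hT'
    exact Prod.ext (Option.some_injective _ hT') (h1.trans h2.symm)
  · rw [mem_gr] at hT hT'
    rw [mem_st_inr] at h1 h2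
    rw [h1.1] at hT
    rw [h2.1] at hT'
    exact Prod.ext (h1.1.trans h2.1.symm) (hφ _ _ c v hT hT' h1.2 h2.2)

/-- the number of edges on which two partial colourings differ -/
private noncomputable def dN (φ ψ : Edge (Fin (2 * n)) → Option (Fin (2 * n - 1))) : ℕ :=
  Nat.card {e : Edge (Fin (2 * n)) // φ e ≠ ψ e}

private theorem dN_eq (φ ψ : Edge (Fin (2 * n)) → Option (Fin (2 * n - 1))) : dN φ ψ =
    (univ.filter (fun e : Edge (Fin (2 * n)) => φ e ≠ ψ e)).card := by
  classical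
  unfold dN
  rw [Nat.card_eq_fintype_card, Fintype.card_subtype]

private theorem sdiff_le (φ ψ : Edge (Fin (2 * n)) → Option (Fin (2 * n - 1))) :
    (gr φ \ gr ψ).card ≤ dN φ ψ := by
  classical
  rw [dN_eq]
  refine card_le_card_of_injOn (fun T => T.2) ?_ ?_
  · intro T hT
    have h := mem_sdiff.mp (mem_coe.mp hT)
    rw [mem_gr, mem_gr] at h
    refine mem_coe.mpr (mem_filter.mpr ⟨mem_univ _, fun h3 => h.2 ?_⟩)
    rw [← h3]
    exact h.1
  · intro T hT T' hT' h
    have h1 := (mem_sdiff.mp (mem_coe.mp hT)).1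
    have h2 := (mem_sdiff.mp (mem_coe.mp hT')).1
    rw [mem_gr] at h1 h2
    have h' : T.2 = T'.2 := h
    rw [h', h2] at h1
    exact Prod.ext (Option.some_injective _ h1).symm h'

private theorem le_sdiff (φ ψ : Edge (Fin (2 * n)) → Option (Fin (2 * n - 1))) :
    dN φ ψ ≤ (gr φ \ gr ψ).card + (gr ψ \ gr φ).card := by
  classical
  rw [dN_eq]
  have hsub : (univ.filter (fun e : Edge (Fin (2 * n)) => φ e ≠ ψ e)) ⊆
      (gr φ \ gr ψ).image (fun T => T.2) ∪ (gr ψ \ gr φ).image (fun T => T.2) := by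
    intro e he
    have h := (mem_filter.mp he).2
    rw [mem_union, mem_image, mem_image]
    rcases h1 : φ e with _ | c
    · right
      rcases h2 : ψ e with _ | c'
      · exact absurd (h1.trans h2.symm) h
      · refine ⟨(c', e), mem_sdiff.mpr ⟨mem_gr.mpr h2, fun h3 => ?_⟩, rfl⟩
        rw [mem_gr] at h3
        rw [h1] at h3
        exact absurd h3 (by simp)
    · left
      refine ⟨(c, e), mem_sdiff.mpr ⟨mem_gr.mpr h1, fun h3 => ?_⟩, rfl⟩
      rw [mem_gr] at h3
      exact h (h1.trans h3.symm)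
  exact (card_le_card hsub).trans ((card_union_le _ _).trans
    (Nat.add_le_add card_image_le card_image_le))

private theorem bd_le (φ ψ : Edge (Fin (2 * n)) → Option (Fin (2 * n - 1))) :
    bdE (gr φ) (gr ψ) ≤ Nat.card {e : Edge (Fin (2 * n)) // ¬ ((φ e).isSome ↔ (ψ e).isSome)} +
      Nat.card {p : Fin (2 * n) × Fin (2 * n - 1) // ¬ ((∃ e : Edge (Fin (2 * n)), p.1 ∈ e.1 ∧
        φ e = some p.2) ↔ ∃ e : Edge (Fin (2 * n)), p.1 ∈ e.1 ∧ ψ e = some p.2)} := by
  classical
  have hE : ∀ (χ : Edge (Fin (2 * n)) → Option (Fin (2 * n - 1))) (e : Edge (Fin (2 * n))),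
      CvE (gr χ) (.inl e) ↔ (χ e).isSome := by
    intro χ e
    rw [Option.isSome_iff_exists]
    constructor
    · rintro ⟨T, hT, h⟩
      rw [mem_st_inl] at h
      rw [mem_gr, h] at hT
      exact ⟨_, hT⟩
    · rintro ⟨c, hc⟩
      exact ⟨(c, e), mem_gr.mpr hc, mem_st_inl.mpr rfl⟩
  have hP : ∀ (χ : Edge (Fin (2 * n)) → Option (Fin (2 * n - 1))) (v : Fin (2 * n))
      (c : Fin (2 * n - 1)), CvE (gr χ) (.inr (v, c)) ↔
      ∃ e : Edge (Fin (2 * n)), v ∈ e.1 ∧ χ e = some c := by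
    intro χ v c
    constructor
    · rintro ⟨T, hT, h⟩
      rw [mem_st_inr] at h
      rw [mem_gr, h.1] at hT
      exact ⟨T.2, h.2, hT⟩
    · rintro ⟨e, hv, hc⟩
      exact ⟨(c, e), mem_gr.mpr hc, mem_st_inr.mpr ⟨rfl, hv⟩⟩
  unfold bdE
  rw [Nat.card_eq_fintype_card, Fintype.card_subtype, Nat.card_eq_fintype_card,
    Fintype.card_subtype]
  have hsub : (univ.filter (fun a : El n => ¬ (CvE (gr φ) a ↔ CvE (gr ψ) a))) ⊆
      (univ.filter (fun e : Edge (Fin (2 * n)) =>
        ¬ ((φ e).isSome ↔ (ψ e).isSome))).image Sum.inl ∪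
      (univ.filter (fun p : Fin (2 * n) × Fin (2 * n - 1) =>
        ¬ ((∃ e : Edge (Fin (2 * n)), p.1 ∈ e.1 ∧ φ e = some p.2) ↔
          ∃ e : Edge (Fin (2 * n)), p.1 ∈ e.1 ∧ ψ e = some p.2))).image Sum.inr := by
    rintro (e | ⟨v, c⟩) ha
    · have h := (mem_filter.mp ha).2
      rw [hE, hE] at h
      exact mem_union_left _ (mem_image_of_mem _ (mem_filter.mpr ⟨mem_univ _, h⟩))
    · have h := (mem_filter.mp ha).2
      rw [hP, hP] at h
      exact mem_union_right _ (mem_image_of_mem _ (mem_filter.mpr ⟨mem_univ _, h⟩))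
  exact (card_le_card hsub).trans ((card_union_le _ _).trans
    (Nat.add_le_add card_image_le card_image_le))

/-- in a full proper colouring every vertex sees every colour -/
private theorem full_sees {φ : Edge (Fin (2 * n)) → Fin (2 * n - 1)}
    (hφ : ∀ e e' v, φ e = φ e' → v ∈ e.1 → v ∈ e'.1 → e = e') (v : Fin (2 * n))
    (c : Fin (2 * n - 1)) : ∃ e : Edge (Fin (2 * n)), v ∈ e.1 ∧ φ e = c := by
  classical
  let f : {w : Fin (2 * n) // w ≠ v} → Fin (2 * n - 1) := fun w =>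
    φ ⟨s(v, w.1), by
      rw [Sym2.mk_isDiag_iff]
      exact fun h => w.2 h.symm⟩
  have hinj : Function.Injective f := by
    intro w w' h
    have h1 := hφ _ _ v h (Sym2.mem_mk_left _ _) (Sym2.mem_mk_left _ _)
    have h2 := congrArg Subtype.val h1
    exact Subtype.ext (Sym2.congr_right.mp h2)
  have hcard : Fintype.card {w : Fin (2 * n) // w ≠ v} = Fintype.card (Fin (2 * n - 1)) := by
    rw [Fintype.card_subtype_compl, Fintype.card_fin, Fintype.card_fin,
      Fintype.card_subtype_eq]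
  have hsur := (Fintype.bijective_iff_injective_and_card f).mpr ⟨hinj, hcard⟩
  obtain ⟨w, hw⟩ := hsur.2 c
  exact ⟨_, Sym2.mem_mk_left _ _, hw⟩

/-- Let `d n → ∞`.  For a uniformly random ordering `σ` of the (colour, edge) pairs of `K_{2n}`,
with probability tending to one the following holds for all `t ≤ d n * n²`, where the list of `e`
at time `t` is `{c | σ (c, e) < t}`:
(1) for any two different partial proper edge-colourings `φ`, `ψ` from the lists, either they differ
on more than `n² / (2 (d n)^17)` edges, or the number of edges coloured by exactly one of them plus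
the number of pairs (vertex, colour) seen by exactly one of them is more than `1 / log n` times the
number of edges on which they differ;
(2) any two different proper edge-colourings from the lists differ on more than
`n² / (2 (d n)^17)` edges. -/
theorem result (d : ℕ → ℝ) (hd : Tendsto d atTop atTop) :
    Tendsto (fun n : ℕ =>
      ((Set.ncard {σ : (Fin (2 * n - 1) × {e : Sym2 (Fin (2 * n)) // ¬ e.IsDiag}) ≃
            Fin (Nat.card (Fin (2 * n - 1) × {e : Sym2 (Fin (2 * n)) // ¬ e.IsDiag})) |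
          ∀ t : ℕ, (t : ℝ) ≤ d n * n ^ 2 →
            (∀ φ ψ : {e : Sym2 (Fin (2 * n)) // ¬ e.IsDiag} → Option (Fin (2 * n - 1)),
              (∀ e c, φ e = some c → (σ (c, e) : ℕ) < t) →
              (∀ e c, ψ e = some c → (σ (c, e) : ℕ) < t) →
              (∀ e e' c v, φ e = some c → φ e' = some c → v ∈ e.1 → v ∈ e'.1 → e = e') →
              (∀ e e' c v, ψ e = some c → ψ e' = some c → v ∈ e.1 → v ∈ e'.1 → e = e') →
              φ ≠ ψ →
              (n : ℝ) ^ 2 / (2 * d n ^ 17) < Nat.card {e // φ e ≠ ψ e} ∨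
              (Nat.card {e // φ e ≠ ψ e} : ℝ) / Real.log n <
                (Nat.card {e // ¬ ((φ e).isSome ↔ (ψ e).isSome)} +
                Nat.card {p : Fin (2 * n) × Fin (2 * n - 1) //
                  ¬ ((∃ e, p.1 ∈ e.1 ∧ φ e = some p.2) ↔
                    ∃ e, p.1 ∈ e.1 ∧ ψ e = some p.2)} : ℕ)) ∧
            ∀ φ ψ : {e : Sym2 (Fin (2 * n)) // ¬ e.IsDiag} → Fin (2 * n - 1),
              (∀ e, (σ (φ e, e) : ℕ) < t) → (∀ e, (σ (ψ e, e) : ℕ) < t) →
              (∀ e e' v, φ e = φ e' → v ∈ e.1 → v ∈ e'.1 → e = e') →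
              (∀ e e' v, ψ e = ψ e' → v ∈ e.1 → v ∈ e'.1 → e = e') →
              φ ≠ ψ → (n : ℝ) ^ 2 / (2 * d n ^ 17) < Nat.card {e // φ e ≠ ψ e}} : ℝ) /
        (Nat.card ((Fin (2 * n - 1) × {e : Sym2 (Fin (2 * n)) // ¬ e.IsDiag}) ≃
            Fin (Nat.card (Fin (2 * n - 1) × {e : Sym2 (Fin (2 * n)) // ¬ e.IsDiag}))) : ℝ)))
      atTop (𝓝 1) := by
  classical
  have hone : ∀ n : ℕ, ∀ 𝒜 : Set (J n ≃ Fin (Nat.card (J n))),
      (Set.ncard 𝒜 : ℝ) / (Nat.card (J n ≃ Fin (Nat.card (J n))) : ℝ) ≤ 1 := by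
    intro n 𝒜
    refine div_le_one_of_le₀ ?_ (Nat.cast_nonneg _)
    have h := Set.ncard_le_ncard (Set.subset_univ 𝒜) (Set.toFinite _)
    rw [Set.ncard_univ] at h
    exact_mod_cast h
  refine tendsto_of_tendsto_of_tendsto_of_le_of_le' (far d hd) tendsto_const_nhds ?_
    (Eventually.of_forall fun n => hone n _)
  filter_upwards [eventually_ge_atTop 1, hd.eventually_ge_atTop 1] with n hn hd1
  refine div_le_div_of_nonneg_right (Nat.cast_le.mpr ?_) (Nat.cast_nonneg _)
  refine Set.ncard_le_ncard ?_ (Set.toFinite _)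
  intro σ hσ t ht
  have hlog : 0 ≤ Real.log n := Real.log_natCast_nonneg n
  have main : ∀ φ ψ : Edge (Fin (2 * n)) → Option (Fin (2 * n - 1)),
      (∀ e c, φ e = some c → (σ (c, e) : ℕ) < t) → (∀ e c, ψ e = some c → (σ (c, e) : ℕ) < t) →
      (∀ e e' c v, φ e = some c → φ e' = some c → v ∈ e.1 → v ∈ e'.1 → e = e') →
      (∀ e e' c v, ψ e = some c → ψ e' = some c → v ∈ e.1 → v ∈ e'.1 → e = e') →
      φ ≠ ψ →
      (n : ℝ) ^ 2 / (2 * d n ^ 17) < Nat.card {e // φ e ≠ ψ e} ∨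
      (Nat.card {e // φ e ≠ ψ e} : ℝ) / Real.log n <
        (Nat.card {e // ¬ ((φ e).isSome ↔ (ψ e).isSome)} +
        Nat.card {p : Fin (2 * n) × Fin (2 * n - 1) //
          ¬ ((∃ e : Edge (Fin (2 * n)), p.1 ∈ e.1 ∧ φ e = some p.2) ↔
            ∃ e : Edge (Fin (2 * n)), p.1 ∈ e.1 ∧ ψ e = some p.2)} : ℕ) := by
    intro φ ψ h1 h2 h3 h4 hne
    have hgr : gr φ ≠ gr ψ := by
      intro h
      apply hne
      funext e
      rcases h5 : φ e with _ | c
      · rcases h6 : ψ e with _ | c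
        · rfl
        · have h7 : ((c, e) : J n) ∈ gr ψ := mem_gr.mpr h6
          rw [← h, mem_gr] at h7
          exact absurd (h5.symm.trans h7) (by simp)
      · have h7 : ((c, e) : J n) ∈ gr φ := mem_gr.mpr h5
        rw [h, mem_gr] at h7
        exact h7.symm
    have h5 := hσ t ht (gr φ) (gr ψ) (pc_gr h3) (pc_gr h4) (by
      intro T hT
      rcases mem_union.mp hT with h | h
      · exact h1 T.2 T.1 (mem_gr.mp h)
      · exact h2 T.2 T.1 (mem_gr.mp h)) hgr
    have e1 := sdiff_le φ ψ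
    have e2 := sdiff_le ψ φ
    have e3 := le_sdiff φ ψ
    have e4 := bd_le φ ψ
    have e5 : dN ψ φ = dN φ ψ := by
      unfold dN
      exact Nat.card_congr (Equiv.subtypeEquivRight fun e => ne_comm)
    have hD : dN φ ψ = Nat.card {e // φ e ≠ ψ e} := rfl
    rw [e5] at e2
    rw [hD] at e1 e2 e3
    rcases h5 with h5 | h5
    · left
      have e6 : (((gr φ \ gr ψ).card + (gr ψ \ gr φ).card : ℕ) : ℝ) ≤
          2 * Nat.card {e // φ e ≠ ψ e} := by
        exact_mod_cast (by omega : (gr φ \ gr ψ).card + (gr ψ \ gr φ).card ≤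
          2 * Nat.card {e // φ e ≠ ψ e})
      have e7 : (n : ℝ) ^ 2 / (2 * d n ^ 17) = (n : ℝ) ^ 2 / d n ^ 17 / 2 := by
        rw [div_div, mul_comm]
      rw [e7]
      linarith
    · right
      have e6 : (Nat.card {e // φ e ≠ ψ e} : ℝ) ≤
          (((gr φ \ gr ψ).card + (gr ψ \ gr φ).card : ℕ) : ℝ) := by exact_mod_cast e3
      have e7 : (bdE (gr φ) (gr ψ) : ℝ) ≤
          (Nat.card {e // ¬ ((φ e).isSome ↔ (ψ e).isSome)} +
          Nat.card {p : Fin (2 * n) × Fin (2 * n - 1) //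
            ¬ ((∃ e : Edge (Fin (2 * n)), p.1 ∈ e.1 ∧ φ e = some p.2) ↔
              ∃ e : Edge (Fin (2 * n)), p.1 ∈ e.1 ∧ ψ e = some p.2)} : ℕ) := by
        exact_mod_cast e4
      exact lt_of_le_of_lt (div_le_div_of_nonneg_right e6 hlog) (lt_of_lt_of_le h5 e7)
  refine ⟨main, ?_⟩
  intro φ ψ h1 h2 h3 h4 hne
  have h5 := main (fun e => some (φ e)) (fun e => some (ψ e))
    (fun e c h => by
      rw [← Option.some_injective _ h]
      exact h1 e)
    (fun e c h => by
      rw [← Option.some_injective _ h]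
      exact h2 e)
    (fun e e' c v h h' => h3 e e' v (Option.some_injective _ (h.trans h'.symm)))
    (fun e e' c v h h' => h4 e e' v (Option.some_injective _ (h.trans h'.symm)))
    (fun h => hne (funext fun e => Option.some_injective _ (congrFun h e)))
  have e1 : Nat.card {e : Edge (Fin (2 * n)) // some (φ e) ≠ some (ψ e)} =
      Nat.card {e // φ e ≠ ψ e} :=
    Nat.card_congr (Equiv.subtypeEquivRight fun e => (Option.some_injective _).ne_iff)
  have e2 : Nat.card {e : Edge (Fin (2 * n)) // ¬ ((some (φ e)).isSome ↔ (some (ψ e)).isSome)} =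
      0 := by
    rw [Nat.card_eq_zero]
    left
    exact ⟨fun e => e.2 (by simp)⟩
  have e3 : Nat.card {p : Fin (2 * n) × Fin (2 * n - 1) //
      ¬ ((∃ e : Edge (Fin (2 * n)), p.1 ∈ e.1 ∧ some (φ e) = some p.2) ↔
        ∃ e : Edge (Fin (2 * n)), p.1 ∈ e.1 ∧ some (ψ e) = some p.2)} = 0 := by
    rw [Nat.card_eq_zero]
    left
    refine ⟨fun p => p.2 ?_⟩
    obtain ⟨e, he, he'⟩ := full_sees h3 p.1.1 p.1.2
    obtain ⟨e1, he1, he1'⟩ := full_sees h4 p.1.1 p.1.2
    exact ⟨fun _ => ⟨e1, he1, congrArg some he1'⟩, fun _ => ⟨e, he, congrArg some he'⟩⟩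
  rcases h5 with h5 | h5
  · rw [← e1]
    exact h5
  · exfalso
    rw [e2, e3] at h5
    have h6 : (0 : ℝ) ≤ (Nat.card {e : Edge (Fin (2 * n)) // some (φ e) ≠ some (ψ e)} : ℝ) /
        Real.log n := div_nonneg (Nat.cast_nonneg _) hlog
    have h7 : ((0 + 0 : ℕ) : ℝ) = 0 := by norm_num
    rw [h7] at h5
    exact absurd h5 (not_lt.mpr h6)

end Pool.Agent.Results.MP_6d56f7_co.FarApart
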