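import Mathlib
import Pool.Agent.Lib.MP_6d56f7_co_LT.HitT

set_option autoImplicit false

namespace Pool.Agent.Results.MP_6d56f7_co.IntegerWeightsHitting

open Pool.Agent.Lib.LT

/-- For a uniformly random ordering of the (colour, edge) pairs of `K_{2n}`, with probability
tending to one, every time `t` at which all lists are nonempty and every vertex sees every colour
has the following two properties.  Every integer function on the pairs can be replaced by one which
vanishes outside the pairs of the first `t` steps and has the same sum over the colours at every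
edge and the same sum over the edges at every (vertex, colour) pair.  And there are integer
weights, zero outside the pairs of the first `t` steps, all of whose sums are one. -/
theorem result :
    Filter.Tendsto
      (fun n : ℕ =>
        ((Set.ncard {σ : (Fin (2*n-1) × {e : Sym2 (Fin (2*n)) // ¬ e.IsDiag}) ≃
              Fin (Nat.card (Fin (2*n-1) × {e : Sym2 (Fin (2*n)) // ¬ e.IsDiag})) |
            ∀ t : ℕ,
              (∀ e : {e : Sym2 (Fin (2*n)) // ¬ e.IsDiag}, ∃ c : Fin (2*n-1),
                (σ (c, e) : ℕ) < t) →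
              (∀ v : Fin (2*n), ∀ c : Fin (2*n-1),
                ∃ e : {e : Sym2 (Fin (2*n)) // ¬ e.IsDiag}, v ∈ e.1 ∧ (σ (c, e) : ℕ) < t) →
              (∀ x : Fin (2*n-1) → {e : Sym2 (Fin (2*n)) // ¬ e.IsDiag} → ℤ,
                ∃ w : Fin (2*n-1) → {e : Sym2 (Fin (2*n)) // ¬ e.IsDiag} → ℤ,
                  (∀ c e, w c e ≠ 0 → (σ (c, e) : ℕ) < t) ∧
                  (∀ e, ∑ c, w c e = ∑ c, x c e) ∧
                  ∀ v c, ∑ e : {e : Sym2 (Fin (2*n)) // ¬ e.IsDiag},
                      (if v ∈ e.1 then w c e else 0) =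
                    ∑ e : {e : Sym2 (Fin (2*n)) // ¬ e.IsDiag},
                      (if v ∈ e.1 then x c e else 0)) ∧
              ∃ w : Fin (2*n-1) → {e : Sym2 (Fin (2*n)) // ¬ e.IsDiag} → ℤ,
                (∀ c e, w c e ≠ 0 → (σ (c, e) : ℕ) < t) ∧
                (∀ e, ∑ c, w c e = 1) ∧
                ∀ v c, ∑ e : {e : Sym2 (Fin (2*n)) // ¬ e.IsDiag},
                  (if v ∈ e.1 then w c e else 0) = 1} : ℝ) /
          (Nat.card ((Fin (2*n-1) × {e : Sym2 (Fin (2*n)) // ¬ e.IsDiag}) ≃
              Fin (Nat.card (Fin (2*n-1) × {e : Sym2 (Fin (2*n)) // ¬ e.IsDiag}))) : ℝ)))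
      Filter.atTop (nhds 1) := hitting

end Pool.Agent.Results.MP_6d56f7_co.IntegerWeightsHitting
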