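import Pool.Agent.Lib.MP_6d56f7_co_LT.HitQ
import Pool.Agent.Lib.MP_6d56f7_co_LT.Blow

set_option autoImplicit false

namespace Pool.Agent.Results.MP_6d56f7_co.MultipleFactorizations

open Finset Filter Topology Pool.Agent.Lib.FR Pool.Agent.Lib.LT

/-- For a uniformly random ordering `σ` of the (colour, edge) pairs of `K_{2n}`, with probability
tending to one, every covering time `t` (all lists nonempty, every vertex sees every colour) has a
`K₀` such that for all `K ≥ K₀`:
(1) there are perfect matchings `M c i` of `K_{2n}`, `i < K`, all of whose edges have the colour `c`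
in their lists, such that every edge is in exactly `K` of the `(2n-1)K` matchings;
(2) the blow-up of `K_{2n}`, in which every vertex is replaced by `K` vertices, has a proper
edge-colouring `φ` with the colours `(c, i)`, `i < K`, in which every edge over `e` gets a colour
`(c, i)` with `c` in the list of `e`. -/
theorem result :
    Tendsto (fun n : ℕ =>
      ((Set.ncard {σ : (Fin (2 * n - 1) × {e : Sym2 (Fin (2 * n)) // ¬ e.IsDiag}) ≃
            Fin (Nat.card (Fin (2 * n - 1) × {e : Sym2 (Fin (2 * n)) // ¬ e.IsDiag})) |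
          ∀ t : ℕ,
            (∀ e : {e : Sym2 (Fin (2 * n)) // ¬ e.IsDiag}, ∃ c : Fin (2 * n - 1),
              (σ (c, e) : ℕ) < t) →
            (∀ v : Fin (2 * n), ∀ c : Fin (2 * n - 1),
              ∃ e : {e : Sym2 (Fin (2 * n)) // ¬ e.IsDiag}, v ∈ e.1 ∧ (σ (c, e) : ℕ) < t) →
            ∃ K₀ : ℕ, ∀ K : ℕ, K₀ ≤ K →
              (∃ M : Fin (2 * n - 1) → Fin K → Finset {e : Sym2 (Fin (2 * n)) // ¬ e.IsDiag},
                (∀ c i, ∀ v, ∃! e, e ∈ M c i ∧ v ∈ (e : Sym2 (Fin (2 * n)))) ∧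
                (∀ c i, ∀ e ∈ M c i, (σ (c, e) : ℕ) < t) ∧
                ∀ e, (univ.filter (fun p : Fin (2 * n - 1) × Fin K => e ∈ M p.1 p.2)).card = K) ∧
              ∃ φ : Fin (2 * n) × Fin K → Fin (2 * n) × Fin K → Fin (2 * n - 1) × Fin K,
                (∀ x y, φ x y = φ y x) ∧
                (∀ x y (h : ¬ (s(x.1, y.1) : Sym2 (Fin (2 * n))).IsDiag),
                  (σ ((φ x y).1, ⟨s(x.1, y.1), h⟩) : ℕ) < t) ∧
                ∀ x y z, y ≠ z → x.1 ≠ y.1 → x.1 ≠ z.1 → φ x y ≠ φ x z} : ℝ) /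
        (Nat.card ((Fin (2 * n - 1) × {e : Sym2 (Fin (2 * n)) // ¬ e.IsDiag}) ≃
            Fin (Nat.card (Fin (2 * n - 1) × {e : Sym2 (Fin (2 * n)) // ¬ e.IsDiag}))) : ℝ)))
      atTop (𝓝 1) := by
  refine hittingQ.congr fun n => ?_
  congr 3
  ext σ
  refine forall_congr' fun t => forall_congr' fun h1 => forall_congr' fun h2 => ?_
  constructor
  · rintro ⟨K₀, hK⟩
    refine ⟨K₀, fun K hK' => ?_⟩
    obtain ⟨M, h3, h4, h5⟩ := hK K hK'
    exact ⟨⟨M, h3, h4, h5⟩, blow_of_km (R := fun c e => (σ (c, e) : ℕ) < t) M h3 h4 h5⟩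
  · rintro ⟨K₀, hK⟩
    refine ⟨K₀, fun K hK' => ?_⟩
    obtain ⟨⟨M, h3, h4, h5⟩, -⟩ := hK K hK'
    exact ⟨M, h3, h4, h5⟩

end Pool.Agent.Results.MP_6d56f7_co.MultipleFactorizations
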